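import Mathlib

open Quaternion

namespace Pool.Agent.Results.MP_dceaed_al.Bounded

/-- The numerical range of `A` with respect to `φ` and `α`. -/
def W (φ : ℍ[ℝ] →ₗ[ℝ] ℍ[ℝ]) (α : ℍ[ℝ]) {n : ℕ} (A : Matrix (Fin n) (Fin n) ℍ[ℝ]) : Set ℍ[ℝ] :=
  {w | ∃ x : Fin n → ℍ[ℝ], ∑ i, φ (x i) * x i = α ∧ w = ∑ i, ∑ j, φ (x i) * A i j * x j}

/-- `z` is a real number plus a `φ`-skew quaternion, i.e. `z ∈ ℝ + ℝ q₁`. -/
def InC (φ : ℍ[ℝ] →ₗ[ℝ] ℍ[ℝ]) (z : ℍ[ℝ]) : Prop :=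
  ∃ (a : ℝ) (s : ℍ[ℝ]), φ s = -s ∧ z = (a : ℍ[ℝ]) + s

def P (φ : ℍ[ℝ] →ₗ[ℝ] ℍ[ℝ]) (α : ℍ[ℝ]) : Prop :=
    (∀ A : Matrix (Fin 1) (Fin 1) ℍ[ℝ], Bornology.IsBounded (W φ α A)) ∧
    (∀ A : Matrix (Fin 2) (Fin 2) ℍ[ℝ], Bornology.IsBounded (W φ α A) ↔
      ∃ z w, InC φ z ∧ InC φ w ∧ A = !![z, w; -φ w, φ z]) ∧
    (∀ n, 3 ≤ n → ∀ A : Matrix (Fin n) (Fin n) ℍ[ℝ], Bornology.IsBounded (W φ α A) ↔
      ∃ a : ℝ, A = a • (1 : Matrix (Fin n) (Fin n) ℍ[ℝ]))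

def f0 : ℍ[ℝ] →ₗ[ℝ] ℍ[ℝ] where
  toFun x := ⟨x.re, -x.imI, x.imJ, x.imK⟩
  map_add' x y := by ext <;> simp; ring
  map_smul' r x := by ext <;> simp

@[simp] lemma f0_re (x : ℍ[ℝ]) : (f0 x).re = x.re := rfl
@[simp] lemma f0_i (x : ℍ[ℝ]) : (f0 x).imI = -x.imI := rfl
@[simp] lemma f0_j (x : ℍ[ℝ]) : (f0 x).imJ = x.imJ := rfl
@[simp] lemma f0_k (x : ℍ[ℝ]) : (f0 x).imK = x.imK := rfl

lemma f0_mul (x y : ℍ[ℝ]) : f0 (x * y) = f0 y * f0 x := by ext <;> simp <;> ring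
lemma f0_f0 (x : ℍ[ℝ]) : f0 (f0 x) = x := by ext <;> simp

noncomputable def Q {n : ℕ} (A : Matrix (Fin n) (Fin n) ℍ[ℝ]) (x y : Fin n → ℍ[ℝ]) : ℍ[ℝ] :=
  ∑ i, ∑ j, f0 (x i) * A i j * y j

section Qs
variable {n : ℕ} (A : Matrix (Fin n) (Fin n) ℍ[ℝ])
lemma Q_add_l (x x' y : Fin n → ℍ[ℝ]) : Q A (x + x') y = Q A x y + Q A x' y := by
  simp [Q, add_mul, Finset.sum_add_distrib]
lemma Q_add_r (x y y' : Fin n → ℍ[ℝ]) : Q A x (y + y') = Q A x y + Q A x y' := by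
  simp [Q, mul_add, Finset.sum_add_distrib]
lemma Q_mul (x y : Fin n → ℍ[ℝ]) (a b : ℍ[ℝ]) :
    Q A (fun i => x i * a) (fun i => y i * b) = f0 a * Q A x y * b := by
  simp [Q, f0_mul, Finset.mul_sum, Finset.sum_mul, mul_assoc]
lemma Q_single (i j : Fin n) (a b : ℍ[ℝ]) :
    Q A (Pi.single i a) (Pi.single j b) = f0 a * A i j * b := by
  simp only [Q]
  rw [Finset.sum_eq_single i, Finset.sum_eq_single j]
  · simp
  · intro c _ h; simp [Pi.single_eq_of_ne h]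
  · simp
  · intro c _ h; simp [Pi.single_eq_of_ne h]
  · simp
lemma Q_one (x y : Fin n → ℍ[ℝ]) : Q 1 x y = ∑ i, f0 (x i) * y i := by
  simp [Q, Matrix.one_apply]
lemma Q_one_symm (x y : Fin n → ℍ[ℝ]) : Q 1 y x = f0 (Q 1 x y) := by
  simp [Q_one, f0_mul, f0_f0]
end Qs

def qi : ℍ[ℝ] := ⟨0, 1, 0, 0⟩

def qq (c d : ℝ) : ℍ[ℝ] := ⟨0, 0, c, d⟩

lemma iso {n : ℕ} (A : Matrix (Fin n) (Fin n) ℍ[ℝ]) (α : ℍ[ℝ]) (hα : f0 α = α)
    (hb : Bornology.IsBounded (W f0 α A)) (x z : Fin n → ℍ[ℝ]) (hx : Q 1 x x = 0)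
    (hz : Q 1 x z = 1) : Q A x x = 0 := by
  have hzx : Q 1 z x = 1 := by rw [Q_one_symm, hz]; ext <;> simp
  have hzz : f0 (Q 1 z z) = Q 1 z z := (Q_one_symm z z).symm
  set β := Q 1 z z with hβ
  set a : ℍ[ℝ] := (1 / 2 : ℝ) • (qi * (α - f0 qi * β * qi)) with ha
  have key : ∀ t : ℝ, Q 1 ((fun i => x i * ((t : ℍ[ℝ]) + a)) + fun i => z i * qi)
      ((fun i => x i * ((t : ℍ[ℝ]) + a)) + fun i => z i * qi) = α := by
    intro t
    rw [Q_add_l, Q_add_r, Q_add_r, Q_mul, Q_mul, Q_mul, Q_mul, hx, hz, hzx, ← hβ, ha]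
    have h1 := congrArg QuaternionAlgebra.imI hα
    have h2 := congrArg QuaternionAlgebra.imI hzz
    simp only [f0_i] at h1 h2
    ext <;> simp [qi] <;> linarith
  obtain ⟨C, hC⟩ := isBounded_iff_forall_norm_le.1 hb
  set y : Fin n → ℍ[ℝ] := (fun i => x i * a) + fun i => z i * qi with hy
  have hv : ∀ t : ℝ, ‖(t ^ 2) • Q A x x + t • (Q A x y + Q A y x) + Q A y y‖ ≤ C := by
    intro t
    apply hC
    refine ⟨(fun i => x i * ((t : ℍ[ℝ]) + a)) + fun i => z i * qi, ?_, ?_⟩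
    · rw [← Q_one, key]
    · change _ = Q A _ _
      have e : ((fun i => x i * ((t : ℍ[ℝ]) + a)) + fun i => z i * qi) =
          (fun i => x i * (t : ℍ[ℝ])) + fun i => y i * 1 := by
        funext i; simp [hy, mul_add, add_assoc]
      have e2 : Q A (fun i => y i * 1) (fun i => y i * 1) = Q A y y := by simp
      rw [e]
      generalize y = y' at e2 ⊢
      rw [Q_add_l, Q_add_r, Q_add_r, Q_mul, Q_mul, Q_mul, e2]
      ext <;> simp <;> ring
  by_contra h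
  have hp : 0 < ‖Q A x x‖ := norm_pos_iff.2 h
  have h0 := hv 0
  have h2 : ∀ t : ℝ, t ^ 2 * ‖Q A x x‖ ≤ 2 * C := by
    intro t
    have e : (2 * t ^ 2) • Q A x x =
        ((t ^ 2) • Q A x x + t • (Q A x y + Q A y x) + Q A y y) +
        (((-t) ^ 2) • Q A x x + (-t) • (Q A x y + Q A y x) + Q A y y) -
        (2 : ℝ) • (((0 : ℝ) ^ 2) • Q A x x + (0 : ℝ) • (Q A x y + Q A y x) + Q A y y) := by
      module
    have h3 := congrArg norm e
    rw [norm_smul, Real.norm_of_nonneg (by positivity)] at h3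
    have h4 := (norm_sub_le _ _).trans (add_le_add ((norm_add_le _ _).trans
      (add_le_add (hv t) (hv (-t)))) (le_of_eq (norm_smul (2 : ℝ)
        (((0 : ℝ) ^ 2) • Q A x x + (0 : ℝ) • (Q A x y + Q A y x) + Q A y y))))
    rw [← h3, Real.norm_of_nonneg (by norm_num : (0 : ℝ) ≤ 2)] at h4
    linarith
  have hC0 : 0 ≤ C := (norm_nonneg _).trans h0
  have h5 := h2 (Real.sqrt ((2 * C + 1) / ‖Q A x x‖))
  rw [Real.sq_sqrt (by positivity), div_mul_cancel₀ _ hp.ne'] at h5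
  linarith

lemma pair {n : ℕ} (A : Matrix (Fin n) (Fin n) ℍ[ℝ]) (α : ℍ[ℝ]) (hα : f0 α = α)
    (hb : Bornology.IsBounded (W f0 α A)) {i j : Fin n} (h : i ≠ j) :
    (A i i).imJ = 0 ∧ (A i i).imK = 0 ∧ (A i j).imJ = 0 ∧ (A i j).imK = 0 ∧
      A j i = -f0 (A i j) ∧ A j j = f0 (A i i) := by
  have key : ∀ c d : ℝ, c ^ 2 + d ^ 2 = 1 →
      A i i + A i j * qq c d + qq c d * A j i + qq c d * A j j * qq c d = 0 := by
    intro c d hcd
    have := iso A α hα hb (Pi.single i 1 + Pi.single j ⟨0, 0, c, d⟩) (Pi.single i 1) (by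
      simp only [Q_add_l, Q_add_r, Q_single]
      ext <;> simp [Matrix.one_apply, h, h.symm] <;> linarith) (by
      simp only [Q_add_l, Q_single]
      ext <;> simp [Matrix.one_apply, h.symm])
    simp only [Q_add_l, Q_add_r, Q_single] at this
    rw [← this]
    ext <;> simp [qq] <;> ring
  have k1 := key 1 0 (by norm_num)
  have k2 := key (-1) 0 (by norm_num)
  have k3 := key 0 1 (by norm_num)
  have k4 := key 0 (-1) (by norm_num)
  have k5 := key (3 / 5) (4 / 5) (by norm_num)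
  simp only [Quaternion.ext_iff] at k1 k2 k3 k4 k5 ⊢
  simp [qq] at k1 k2 k3 k4 k5 ⊢
  obtain ⟨a1, a2, a3, a4⟩ := k1
  obtain ⟨b1, b2, b3, b4⟩ := k2
  obtain ⟨c1, c2, c3, c4⟩ := k3
  obtain ⟨d1, d2, d3, d4⟩ := k4
  obtain ⟨e1, e2, e3, e4⟩ := k5
  refine ⟨?_, ?_, ?_, ?_, ⟨?_, ?_, ?_, ?_⟩, ⟨?_, ?_, ?_, ?_⟩⟩ <;> linarith

lemma inC0 (z : ℍ[ℝ]) : InC f0 z ↔ z.imJ = 0 ∧ z.imK = 0 := by
  constructor
  · rintro ⟨a, s, hs, rfl⟩
    have h1 := congrArg QuaternionAlgebra.imJ hs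
    have h2 := congrArg QuaternionAlgebra.imK hs
    simp at h1 h2 ⊢
    constructor <;> linarith
  · rintro ⟨h1, h2⟩
    refine ⟨z.re, ⟨0, z.imI, 0, 0⟩, ?_, ?_⟩ <;> ext <;> simp [h1, h2]

lemma bdd_of (S : Set ℍ[ℝ]) (C : ℝ) (h : ∀ w ∈ S, normSq w ≤ C) : Bornology.IsBounded S := by
  refine isBounded_iff_forall_norm_le.2 ⟨C + 1, fun w hw => ?_⟩
  have := h w hw
  rw [normSq_eq_norm_mul_self] at this
  nlinarith [norm_nonneg w]

lemma P0 (α : ℍ[ℝ]) (hα : f0 α = α) : P f0 α := by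
  refine ⟨fun A => ?_, fun A => ⟨fun hb => ?_, ?_⟩, fun n hn A => ⟨fun hb => ?_, ?_⟩⟩
  · refine bdd_of _ (normSq (A 0 0) * normSq α) ?_
    rintro w ⟨x, hx, rfl⟩
    rw [← hx]
    simp only [Fin.sum_univ_one, map_mul, Fin.isValue]
    apply le_of_eq; ring
  · obtain ⟨h1, h2, h3, h4, h5, h6⟩ := pair A α hα hb (i := 0) (j := 1) (by decide)
    refine ⟨A 0 0, A 0 1, (inC0 _).2 ⟨h1, h2⟩, (inC0 _).2 ⟨h3, h4⟩, ?_⟩
    rw [← h5, ← h6]
    exact Matrix.eta_fin_two A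
  · rintro ⟨z, w, hz, hw, rfl⟩
    rw [inC0] at hz hw
    refine bdd_of _ ((normSq z + normSq w) * normSq α) ?_
    rintro v ⟨x, hx, rfl⟩
    rw [← hx]
    obtain ⟨a, b, c, d⟩ := z
    obtain ⟨a', b', c', d'⟩ := w
    obtain ⟨rfl, rfl⟩ : c = 0 ∧ d = 0 := hz
    obtain ⟨rfl, rfl⟩ : c' = 0 ∧ d' = 0 := hw
    simp only [Fin.sum_univ_two, Fin.isValue, Matrix.of_apply, Matrix.cons_val', Matrix.cons_val_zero,
      Matrix.cons_val_one, Matrix.cons_val_fin_one]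
    generalize x 0 = p
    generalize x 1 = q
    obtain ⟨p0, p1, p2, p3⟩ := p
    obtain ⟨q0, q1, q2, q3⟩ := q
    simp [normSq_def']
    have cs : ∀ m1 m2 m3 : ℝ, (b * m1 + a' * m2 + b' * m3) ^ 2 ≤
        (b ^ 2 + a' ^ 2 + b' ^ 2) * (m1 ^ 2 + m2 ^ 2 + m3 ^ 2) := by
      intro m1 m2 m3
      nlinarith [sq_nonneg (b * m2 - a' * m1), sq_nonneg (b * m3 - b' * m1),
        sq_nonneg (a' * m3 - b' * m2)]
    have := cs (p0 ^ 2 + p1 ^ 2 + p2 ^ 2 + p3 ^ 2 - (q0 ^ 2 + q1 ^ 2 + q2 ^ 2 + q3 ^ 2))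
      (2 * (p0 * q1 - p1 * q0 + p2 * q3 - p3 * q2)) (2 * (p0 * q0 + p1 * q1 + p2 * q2 + p3 * q3))
    linear_combination this
  · have h3 : ∀ i j : Fin n, ∃ k, k ≠ i ∧ k ≠ j := by
      intro i j
      by_contra hc
      push Not at hc
      have : (Finset.univ : Finset (Fin n)) ⊆ {i, j} := by
        intro k _
        by_cases hk : k = i
        · simp [hk]
        · simp [hc k hk]
      have h1 := Finset.card_le_card this
      have h2 := Finset.card_le_two (a := i) (b := j)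
      simp at h1
      omega
    have hd : ∀ i j : Fin n, i ≠ j → A j j = A i i ∧ (A i i).imI = 0 := by
      intro i j h
      obtain ⟨k, hk1, hk2⟩ := h3 i j
      have e1 := (pair A α hα hb h).2.2.2.2.2
      have e2 := (pair A α hα hb hk1.symm).2.2.2.2.2
      have e3 := (pair A α hα hb hk2).2.2.2.2.2
      rw [e2, f0_f0] at e3
      refine ⟨e3, ?_⟩
      have := congrArg QuaternionAlgebra.imI (e3.symm.trans e1)
      simp at this
      linarith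
    let o : Fin n := ⟨0, by omega⟩
    have hdiag : ∀ i, A i i = ((A o o).re : ℍ[ℝ]) := by
      intro i
      obtain ⟨k, hk1, hk2⟩ := h3 i o
      have e1 := hd i k hk1.symm
      have e2 := hd o k hk2.symm
      have e3 := pair A α hα hb hk1.symm
      ext
      · simp [← e1.1, e2.1]
      · simp [e1.2]
      · simp [e3.1]
      · simp [e3.2.1]
    refine ⟨(A o o).re, ?_⟩
    funext i j
    by_cases h : i = j
    · subst h
      rw [hdiag i]
      ext <;> simp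
    · obtain ⟨k, hk1, hk2⟩ := h3 i j
      obtain ⟨-, -, a1, a2, a3, -⟩ := pair A α hα hb h
      obtain ⟨-, -, b1, b2, b3, -⟩ := pair A α hα hb hk1.symm
      obtain ⟨-, -, c1, c2, c3, -⟩ := pair A α hα hb hk2.symm
      have key : ∀ c d : ℝ, c ^ 2 + d ^ 2 = 16 / 25 →
          c * (A i j).imI + d * (A i j).re = 0 := by
        intro c d hcd
        have := iso A α hα hb (Pi.single i ⟨3 / 5, 0, 0, 0⟩ + Pi.single j ⟨c, d, 0, 0⟩ +
          Pi.single k ⟨0, 0, 1, 0⟩) (Pi.single i ⟨5 / 3, 0, 0, 0⟩) (by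
          simp only [Q_add_l, Q_add_r, Q_single]
          ext <;> simp [Matrix.one_apply, h, Ne.symm h, hk1, hk2, hk1.symm, hk2.symm] <;>
            linarith) (by
          simp only [Q_add_l, Q_single]
          ext <;> simp [Matrix.one_apply, Ne.symm h, hk1] <;> norm_num)
        simp only [Q_add_l, Q_add_r, Q_single] at this
        rw [a3, b3, c3, hdiag i, hdiag j, hdiag k] at this
        have := congrArg QuaternionAlgebra.imI this
        simp [a1, a2, b1, b2, c1, c2] at this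
        linarith
      have k1 := key (4 / 5) 0 (by norm_num)
      have k2 := key 0 (4 / 5) (by norm_num)
      ext <;> simp [Matrix.one_apply, h, a1, a2] <;> linarith
  · rintro ⟨a, rfl⟩
    refine (Bornology.isBounded_singleton (x := a • α)).subset ?_
    rintro v ⟨x, hx, rfl⟩
    rw [Set.mem_singleton_iff, ← hx, Finset.smul_sum]
    simp [Matrix.one_apply]

lemma transport (φ : ℍ[ℝ] →ₗ[ℝ] ℍ[ℝ]) (ψ : ℍ[ℝ] ≃ₐ[ℝ] ℍ[ℝ]) (h : ∀ x, φ (ψ x) = ψ (f0 x))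
    (α : ℍ[ℝ]) (hP : P f0 α) : P φ (ψ α) := by
  have hW : ∀ {n : ℕ} (A : Matrix (Fin n) (Fin n) ℍ[ℝ]),
      Bornology.IsBounded (W φ (ψ α) (A.map ψ)) ↔ Bornology.IsBounded (W f0 α A) := by
    intro n A
    have e : W φ (ψ α) (A.map ψ) = ψ '' W f0 α A := by
      ext w
      constructor
      · rintro ⟨x, hx, rfl⟩
        refine ⟨_, ⟨fun i => ψ.symm (x i), ?_, rfl⟩, ?_⟩
        · apply ψ.injective
          simp [← hx, ← h]
        · simp [← h]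
      · rintro ⟨_, ⟨x, hx, rfl⟩, rfl⟩
        refine ⟨fun i => ψ (x i), ?_, ?_⟩
        · simp [← hx, h]
        · simp [h]
    rw [e]
    let L := ψ.toLinearEquiv.toContinuousLinearEquiv
    constructor
    · intro hb
      have := L.symm.toContinuousLinearMap.lipschitz.isBounded_image hb
      rw [Set.image_image] at this
      convert this using 1
      have : ∀ x, L.symm.toContinuousLinearMap (ψ x) = x := fun x => L.symm_apply_apply x
      simp only [this, Set.image_id']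
    · intro hb
      exact L.toContinuousLinearMap.lipschitz.isBounded_image hb
  have hs : ∀ {n : ℕ} (A : Matrix (Fin n) (Fin n) ℍ[ℝ]), ∃ B : Matrix (Fin n) (Fin n) ℍ[ℝ], A = B.map ψ := by
    intro n A
    refine ⟨A.map ψ.symm, ?_⟩
    funext i j; simp
  have hr : ∀ a : ℝ, ψ (a : ℍ[ℝ]) = a := fun a => ψ.commutes a
  have hC : ∀ z, InC φ (ψ z) ↔ InC f0 z := by
    intro z
    constructor
    · rintro ⟨a, s, h1, h2⟩
      obtain ⟨s, rfl⟩ := ψ.surjective s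
      refine ⟨a, s, ψ.injective (by rw [← h, h1, map_neg]), ψ.injective (by rw [h2, map_add, hr])⟩
    · rintro ⟨a, s, h1, rfl⟩
      exact ⟨a, ψ s, by rw [h, h1, map_neg], by rw [map_add, hr]⟩
  refine ⟨fun A => ?_, fun A => ?_, fun n hn A => ?_⟩
  · obtain ⟨B, rfl⟩ := hs A
    exact (hW B).2 (hP.1 B)
  · obtain ⟨B, rfl⟩ := hs A
    rw [hW, hP.2.1]
    constructor
    · rintro ⟨z, w, hz, hw, rfl⟩
      refine ⟨ψ z, ψ w, (hC z).2 hz, (hC w).2 hw, ?_⟩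
      funext i j
      fin_cases i <;> fin_cases j <;> simp [h]
    · rintro ⟨z, w, hz, hw, e⟩
      obtain ⟨z, rfl⟩ := ψ.surjective z
      obtain ⟨w, rfl⟩ := ψ.surjective w
      refine ⟨z, w, (hC z).1 hz, (hC w).1 hw, ?_⟩
      funext i j
      apply ψ.injective
      have := congrFun (congrFun e i) j
      rw [Matrix.map_apply] at this
      rw [this]
      fin_cases i <;> fin_cases j <;> simp [h]
  · obtain ⟨B, rfl⟩ := hs A
    rw [hW, hP.2.2 n hn]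
    have e : ∀ a : ℝ, (a • (1 : Matrix (Fin n) (Fin n) ℍ[ℝ])).map ψ = a • 1 := by
      intro a
      funext i j
      by_cases hij : i = j <;> simp [Matrix.one_apply, hij]
    constructor
    · rintro ⟨a, rfl⟩
      exact ⟨a, e a⟩
    · rintro ⟨a, ha⟩
      refine ⟨a, ?_⟩
      funext i j
      apply ψ.injective
      exact congrFun (congrFun (ha.trans (e a).symm) i) j

lemma unit_of (s : ℍ[ℝ]) (h0 : s ≠ 0) (hre : s.re = 0) :
    ∃ c : ℝ, (c • s) * (c • s) = -1 := by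
  have hp : 0 < ‖s‖ := norm_pos_iff.2 h0
  have h1 := normSq_eq_norm_mul_self s
  rw [normSq_def', hre] at h1
  refine ⟨‖s‖⁻¹, ?_⟩
  have h2 : ‖s‖⁻¹ * ‖s‖ = 1 := inv_mul_cancel₀ hp.ne'
  ext <;> simp only [re_mul, imI_mul, imJ_mul, imK_mul, re_smul, imI_smul, imJ_smul, imK_smul, hre,
    smul_eq_mul, re_neg, imI_neg, imJ_neg, imK_neg, re_one, imI_one, imJ_one, imK_one]
  · linear_combination (-(‖s‖⁻¹) ^ 2) * h1 + (‖s‖⁻¹ * ‖s‖ + 1) * (-1) * h2
  all_goals ring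

lemma exists_psi (φ : ℍ[ℝ] →ₗ[ℝ] ℍ[ℝ]) (hmul : ∀ x y, φ (x * y) = φ y * φ x)
    (hinv : ∀ x, φ (φ x) = x) (hns : ∃ x, φ x ≠ star x) :
    ∃ ψ : ℍ[ℝ] ≃ₐ[ℝ] ℍ[ℝ], ∀ x, φ (ψ x) = ψ (f0 x) := by
  have h1 : φ 1 = 1 := by
    have := hmul 1 (φ 1)
    rw [one_mul, hinv, one_mul] at this
    exact this.symm
  have hr : ∀ a : ℝ, φ (a : ℍ[ℝ]) = a := by
    intro a
    have e : (a : ℍ[ℝ]) = a • (1 : ℍ[ℝ]) := by ext <;> simp
    rw [e, map_smul, h1]
  have hpure : ∀ x : ℍ[ℝ], x.re = 0 → (φ x).re = 0 := by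
    intro x hx
    have e : x * x = ((-(x.imI ^ 2 + x.imJ ^ 2 + x.imK ^ 2) : ℝ) : ℍ[ℝ]) := by
      ext <;> simp only [re_coe, imI_coe, imJ_coe, imK_coe, re_mul, imI_mul, imJ_mul, imK_mul,
        hx] <;> ring
    have e2 := hmul x x
    rw [e, hr] at e2
    simp only [Quaternion.ext_iff] at e2
    simp only [re_coe, imI_coe, imJ_coe, imK_coe, re_mul, imI_mul, imJ_mul, imK_mul] at e2
    obtain ⟨a, b, c, d⟩ := e2
    by_contra hne
    have hb : (φ x).imI = 0 := by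
      apply mul_left_cancel₀ hne; linarith
    have hc : (φ x).imJ = 0 := by
      apply mul_left_cancel₀ hne; linarith
    have hd : (φ x).imK = 0 := by
      apply mul_left_cancel₀ hne; linarith
    rw [hb, hc, hd] at a
    have := mul_self_pos.2 hne
    nlinarith [sq_nonneg x.imI, sq_nonneg x.imJ, sq_nonneg x.imK]
  have hre : ∀ x : ℍ[ℝ], (φ x).re = x.re := by
    intro x
    have := hpure (x - (x.re : ℍ[ℝ])) (by simp)
    rw [map_sub, hr] at this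
    simp at this
    linarith
  obtain ⟨x, hx⟩ : ∃ x, φ x ≠ x := by
    by_contra hc
    push Not at hc
    have := hmul ⟨0, 1, 0, 0⟩ ⟨0, 0, 1, 0⟩
    simp only [hc] at this
    have := congrArg QuaternionAlgebra.imK this
    simp at this
    linarith
  obtain ⟨y, hy⟩ := hns
  obtain ⟨c, hc⟩ := unit_of (x - φ x) (sub_ne_zero.2 hx.symm) (by simp [hre])
  obtain ⟨d, hd⟩ := unit_of (φ y - star y) (sub_ne_zero.2 hy) (by simp [hre])
  have e1 : φ (c • (x - φ x)) = -(c • (x - φ x)) := by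
    rw [map_smul, map_sub, hinv]; module
  have e2 : φ (d • (φ y - star y)) = d • (φ y - star y) := by
    have : star y = ((2 * y.re : ℝ) : ℍ[ℝ]) - y := by ext <;> simp; ring
    rw [this, map_smul, map_sub, hinv, map_sub, hr]; module
  have r1 : (c • (x - φ x)).re = 0 := by simp [hre]
  have r2 : (d • (φ y - star y)).re = 0 := by simp [hre]
  generalize c • (x - φ x) = u at hc e1 r1
  generalize d • (φ y - star y) = v at hd e2 r2
  have hanti : v * u = -(u * v) := by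
    have := hre (u * v)
    rw [hmul, e1, e2] at this
    simp [r1, r2] at this
    ext <;> simp [r1, r2] <;> linarith
  let B : QuaternionAlgebra.Basis ℍ[ℝ] (-1 : ℝ) 0 (-1) :=
    ⟨u, v, u * v, by simp [hc], by simp [hd], rfl, by simp [hanti]⟩
  let F : ℍ[ℝ] →ₐ[ℝ] ℍ[ℝ] := B.liftHom
  have hinj : Function.Injective F := F.toRingHom.injective
  have hsurj : Function.Surjective F :=
    (LinearMap.injective_iff_surjective (f := F.toLinearMap)).1 hinj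
  refine ⟨AlgEquiv.ofBijective F ⟨hinj, hsurj⟩, fun z => ?_⟩
  change φ ((z.re : ℍ[ℝ]) + z.imI • u + z.imJ • v + z.imK • (u * v)) =
    (z.re : ℍ[ℝ]) + (-z.imI) • u + z.imJ • v + z.imK • (u * v)
  simp only [map_add, map_smul, hr, hmul, e1, e2, mul_neg, hanti]
  module

theorem result (φ : ℍ[ℝ] →ₗ[ℝ] ℍ[ℝ]) (hmul : ∀ x y, φ (x * y) = φ y * φ x)
    (hinv : ∀ x, φ (φ x) = x) (hns : ∃ x, φ x ≠ star x) (α : ℍ[ℝ]) (hα : φ α = α)
    (_h0 : α ≠ 0) :
    (∀ A : Matrix (Fin 1) (Fin 1) ℍ[ℝ], Bornology.IsBounded (W φ α A)) ∧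
    (∀ A : Matrix (Fin 2) (Fin 2) ℍ[ℝ], Bornology.IsBounded (W φ α A) ↔
      ∃ z w, InC φ z ∧ InC φ w ∧ A = !![z, w; -φ w, φ z]) ∧
    (∀ n, 3 ≤ n → ∀ A : Matrix (Fin n) (Fin n) ℍ[ℝ], Bornology.IsBounded (W φ α A) ↔
      ∃ a : ℝ, A = a • (1 : Matrix (Fin n) (Fin n) ℍ[ℝ])) := by
  obtain ⟨ψ, h⟩ := exists_psi φ hmul hinv hns
  obtain ⟨β, rfl⟩ := ψ.surjective α
  exact transport φ ψ h β (P0 β (ψ.injective (by rw [← h, hα])))

end Pool.Agent.Results.MP_dceaed_al.Bounded
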